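import Mathlib
import Pool.Agent.Helper70.VP.Main

/-!
# Voisin's conjecture for ramified double covers of products and isotrivial elliptic surfaces

Let `C₁`, `C₂` be smooth projective curves over an algebraically closed field `k` of
characteristic zero, `V₁`, `V₂` finite groups of automorphisms of `C₁`, `C₂`, `G` a subgroup of
`V₁ × V₂` which surjects to both factors, and `S = (C₁ × C₂) / G`. Suppose that `V₂` acts on the
Jacobian of `C₂` through a character with values `± 1`, up to torsion: there are characters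
`ε₁` of `V₁` and `ε₂` of `V₂` which agree on `G`, such that the kernel of `ε₂` acts trivially on
`Pic⁰(C₂) ⊗ ℚ`. Suppose also that for `i = 1, 2` some element of `V_i` on which `ε_i` is `- 1` has a
fixed point, in other words that the double cover `C_i / ker ε_i → C_i / V_i` is ramified.
No condition is imposed on the curves `D_i = C_i / V_i`. With `γ_i = g(D_i)` and
`g_i = g(C_i / ker ε_i)` one has

`p_g(S) = γ₁ γ₂ + (g₁ - γ₁) (g₂ - γ₂)`.

For `n > p_g(S)` and Albanese trivial zero-cycles `a_1, …, a_n` on `S`, the alternating sum of the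
exterior products `a_{σ(1)} × ⋯ × a_{σ(n)}` is torsion in the Chow group of zero-cycles
of `S ^ n`.

Examples: all double covers `w² = f(x) g(y)` of a product `D₁ × D₂` of two curves of arbitrary
genus, for functions `f` on `D₁` and `g` on `D₂` which both have a zero or pole of odd order
(`C_i = D_i(√f_i)`, `V_i` of order two, `G` the diagonal); and all isotrivial elliptic surfaces
`(C × E) / G` with at least one fibre of type `I₀*`, where the group acts on `E` by translations
and the maps `x ↦ c - x` (`C₂ = E`; here `p_g(S) = g₁ - γ₁ = χ(O_S) + γ₁ - 1`).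

Outline of the proof. The invariant part is treated like a product of curves. For the twisted part
the main point is: for a ramified double cover `C → D`, with `2 s > 0` branch points, the
symmetrization of a product of `g(D) + s = dim Prym(C / D) + 1` cycles `x - τ x` is torsion in
the Chow group. Given `x_1, …, x_N` on `D`, `N ≥ g(D) + s`, there is a nonconstant function `φ`
with poles at most in these points taking equal values on `s - 1` pairs of branch points; the norm
of the function defining the double cover is then, up to squares, of degree at most two in the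
parameter, so that the symmetrized twisted cycles of the fibres of `φ` are parametrized by a
rational curve. They vanish on a fibre through a branch point.
-/

namespace Pool.Agent.Helper70.Reserve.RamifiedDoubleQuotients

open VC VQ VP

universe u

theorem result {k : Type u} [Field k] [IsAlgClosed k] [CharZero k]
    {F₁ F₂ : Type u} [Field F₁] [Algebra k F₁] [Field F₂] [Algebra k F₂]
    (h₁ : IsFunctionField k F₁) (h₂ : IsFunctionField k F₂)
    (V₁ : Subgroup (F₁ ≃ₐ[k] F₁)) (V₂ : Subgroup (F₂ ≃ₐ[k] F₂)) [Finite V₁] [Finite V₂]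
    (G : Subgroup (V₁ × V₂))
    (hp₁ : ∀ s : V₁, ∃ t : V₂, (s, t) ∈ G) (_hp₂ : ∀ t : V₂, ∃ s : V₁, (s, t) ∈ G)
    (ε₁ : V₁ →* ℤˣ) (ε₂ : V₂ →* ℤˣ) (hε : ∀ s ∈ G, ε₁ s.1 = ε₂ s.2)
    (htriv : ∀ t : V₂, ε₂ t = 1 → ∀ P Q : Place k F₂, ∃ m : ℕ, 0 < m ∧
      m • ((Finsupp.single (act h₂ t.1 P) 1 - Finsupp.single P 1) -
        (Finsupp.single (act h₂ t.1 Q) 1 - Finsupp.single Q 1)) ∈ (curve h₂).Rat)
    (hr₁ : ∃ s : V₁, ε₁ s = -1 ∧ ∃ P : Place k F₁, act h₁ s.1 P = P)
    (hr₂ : ∃ t : V₂, ε₂ t = -1 ∧ ∃ P : Place k F₂, act h₂ t.1 P = P)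
    (γ₁ γ₂ g₁ g₂ : ℕ)
    (hγ₁ : IsGenus k (IntermediateField.fixedField V₁) γ₁)
    (hγ₂ : IsGenus k (IntermediateField.fixedField V₂) γ₂)
    (hg₁ : IsGenus k (IntermediateField.fixedField (ε₁.ker.map V₁.subtype)) g₁)
    (hg₂ : IsGenus k (IntermediateField.fixedField (ε₂.ker.map V₂.subtype)) g₂)
    (n : ℕ) (hn : γ₁ * γ₂ + (g₁ - γ₁) * (g₂ - γ₂) < n)
    (a : Fin n → (quotSurface h₁ h₂ V₁ V₂ G).Cycles)
    (ha : ∀ i, AlbaneseTrivial (curve h₁) (curve h₂) (pullCycle h₁ h₂ V₁ V₂ G (a i))) :
    ∃ m : ℕ, 0 < m ∧ m • ∑ σ : Equiv.Perm (Fin n), ((Equiv.Perm.sign σ : ℤˣ) : ℤ) •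
      extProd (fun i => a (σ i)) ∈ ((quotSurface h₁ h₂ V₁ V₂ G).pow n).Rat := by
  have : Fintype V₁ := Fintype.ofFinite V₁
  have : Fintype V₂ := Fintype.ofFinite V₂
  exact descend h₁ h₂ V₁ V₂ G n a
    (alternating_invariant_tw h₁ h₂ V₁ V₂ G n hp₁ ε₁ ε₂ hε htriv hr₁ hr₂ γ₁ γ₂ g₁ g₂ hγ₁ hγ₂
      hg₁ hg₂ hn (fun i => pullCycle h₁ h₂ V₁ V₂ G (a i)) ha
      (fun i s hs => pull_inv h₁ h₂ V₁ V₂ G s hs (a i)))

end Pool.Agent.Helper70.Reserve.RamifiedDoubleQuotients
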