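import Pool.Agent.Helper70.Art.Main
import Pool.Agent.Helper70.Art.Prod
import Pool.Agent.Helper70.Inv.Final

/-!
# Quotients of Dedekind zeta functions: involutions of symmetric groups

Let `N/K` be a Galois extension of number fields whose Galois group maps onto a finite product of
symmetric groups (of arbitrary degrees) with solvable kernel, and let `L` be an intermediate field
such that the elements of the Galois group fixing `L` act in each of the factors as the identity
or as a fixed element of order two (of arbitrary cycle type). Then some positive power of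
`ζ_L / ζ_K` is a product of Artin `L`-functions of nontrivial characters of degree one.
-/

set_option autoImplicit false

open NumberField Pool.Agent.Helper70.Art

namespace Pool.Agent.Results.MP_9fc8a5_nt.SymmetricInvolutions

theorem result {K N : Type*} [Field K] [NumberField K] [Field N] [NumberField N] [Algebra K N]
    [IsGalois K N] (L : IntermediateField K N)
    {ι : Type*} [Finite ι] (n : ι → ℕ)
    (π : (N ≃ₐ[K] N) →* ∀ i, Equiv.Perm (Fin (n i))) (hπ : Function.Surjective π)
    (hker : Group.IsSolvable π.ker)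
    (τ : ∀ i, Equiv.Perm (Fin (n i))) (hτ : ∀ i, τ i ^ 2 = 1)
    (hL : ∀ σ : N ≃ₐ[K] N, (∀ x ∈ L, σ x = x) → ∀ i, π σ i = 1 ∨ π σ i = τ i) :
    ∃ (m r : ℕ) (M : Fin r → Subgroup (N ≃ₐ[K] N)) (ψ : ∀ j, M j →* ℂˣ) (e : Fin r → ℕ),
      0 < m ∧ (∀ j, ψ j ≠ 1) ∧ ∀ s : ℂ, 1 < s.re →
        dedekindZeta L s ^ m = dedekindZeta K s ^ m *
          ∏ j, artinL (IntermediateField.fixedField (M j)) N (ψ j) s ^ e j := by
  refine zeta_identity K N L (ded_prod π hπ (fun i => Subgroup.zpowers (τ i))
    (fun i => inferInstance) (fun i => Pool.Agent.Helper70.Inv.ded_inv (τ i) (hτ i)) _ ?_)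
  rintro x ⟨σ, hσ, rfl⟩
  rw [Subgroup.mem_pi]
  intro i _
  have hσ' : ∀ x ∈ L, σ x = x := fun x hx => hσ ⟨x, hx⟩
  rcases hL σ hσ' i with h | h
  · rw [h]
    exact one_mem _
  · rw [h]
    exact Subgroup.mem_zpowers _

end Pool.Agent.Results.MP_9fc8a5_nt.SymmetricInvolutions
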